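import Mathlib

set_option autoImplicit false

namespace Pool.Agent.MP_52008a_ag.FF

variable {E F Γ : Type} [Field E] [Field F] [Algebra E F] [LinearOrderedCommGroupWithZero Γ]

/-- A sum of terms with pairwise distinct nonzero values has the largest of the values. -/
theorem v_sum_of_distinct (ν : Valuation F Γ) {ι : Type} (s : Finset ι) (hs : s.Nonempty)
    (g : ι → F) (hg : ∀ i ∈ s, ∀ j ∈ s, i ≠ j → g i ≠ 0 → g j ≠ 0 → ν (g i) ≠ ν (g j)) :
    ∃ i ∈ s, ν (∑ j ∈ s, g j) = ν (g i) ∧ (∀ j ∈ s, ν (g j) ≤ ν (g i)) ∧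
      (g i ≠ 0 → ∀ j ∈ s, j ≠ i → ν (g j) < ν (g i)) := by
  classical
  obtain ⟨i, hi, hmax⟩ := s.exists_max_image (fun j => ν (g j)) hs
  have hlt : g i ≠ 0 → ∀ j ∈ s, j ≠ i → ν (g j) < ν (g i) := fun h0 j hj hji => by
    rcases eq_or_ne (g j) 0 with h | h
    · rw [h, map_zero]
      exact zero_lt_iff.2 ((Valuation.ne_zero_iff ν).2 h0)
    · exact lt_of_le_of_ne (hmax j hj) (hg j hj i hi hji h h0)
  refine ⟨i, hi, ?_, hmax, hlt⟩
  rcases eq_or_ne (g i) 0 with h0 | h0
  · rw [Finset.sum_eq_zero, h0]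
    intro j hj
    have := hmax j hj
    rw [h0, map_zero, le_zero_iff] at this
    exact (Valuation.zero_iff ν).1 this
  · rw [← Finset.add_sum_erase s g hi]
    refine ν.map_add_eq_of_lt_left (ν.map_sum_lt ((Valuation.ne_zero_iff ν).2 h0) fun j hj => ?_)
    exact hlt h0 j (Finset.mem_of_mem_erase hj) (Finset.ne_of_mem_erase hj)

theorem linearIndependent_of_distinct (ν : Valuation F Γ) {ι : Type} [Fintype ι] (b : ι → F)
    (hb0 : ∀ i, b i ≠ 0)
    (hb : ∀ i j, i ≠ j → ∀ r r' : E, r ≠ 0 → r' ≠ 0 → ν (r • b i) ≠ ν (r' • b j)) :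
    LinearIndependent E b := by
  rw [Fintype.linearIndependent_iff]
  intro r hr i
  obtain ⟨j, -, h1, h2, -⟩ := v_sum_of_distinct ν Finset.univ ⟨i, Finset.mem_univ i⟩
    (fun j => r j • b j) fun i _ j _ hij hi hj =>
      hb i j hij _ _ (left_ne_zero_of_smul hi) (left_ne_zero_of_smul hj)
  have h3 := h2 i (Finset.mem_univ i)
  rw [← h1, hr, map_zero, le_zero_iff, Valuation.zero_iff, smul_eq_zero] at h3
  exact h3.resolve_right (hb0 i)

/-- If the value groups have index equal to the degree then the value of the norm is the power of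
the value. -/
theorem v_norm_of_distinct [FiniteDimensional E F] (ν : Valuation F Γ) {ι : Type} [Fintype ι]
    (hcard : Fintype.card ι = Module.finrank E F) (b : ι → F) (hb0 : ∀ i, b i ≠ 0)
    (hb : ∀ i j, i ≠ j → ∀ r r' : E, r ≠ 0 → r' ≠ 0 → ν (r • b i) ≠ ν (r' • b j)) (h : F) :
    ν (algebraMap E F (Algebra.norm E h)) = ν h ^ Module.finrank E F := by
  classical
  have hpos := Module.finrank_pos (R := E) (M := F)
  rcases eq_or_ne h 0 with rfl | hh
  · rw [Algebra.norm_zero, map_zero, map_zero, zero_pow hpos.ne']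
  have : Nonempty ι := Fintype.card_pos_iff.1 (hcard ▸ hpos)
  let B := basisOfLinearIndependentOfCardEqFinrank (linearIndependent_of_distinct ν b hb0 hb) hcard
  have hB : ∀ i, B i = b i := fun i => by simp [B]
  let M := Algebra.leftMulMatrix B h
  have hM : ∀ j, ∑ i, M i j • b i = h * b j := fun j => by
    simp only [M, Algebra.leftMulMatrix_eq_repr_mul, ← hB]
    exact B.sum_repr _
  have hν : ∀ {g : F}, g ≠ 0 → ν g ≠ 0 := fun hg => (Valuation.ne_zero_iff ν).2 hg
  have key : ∀ j, ∃ i, ν (M i j • b i) = ν (h * b j) ∧ (∀ i', ν (M i' j • b i') ≤ ν (h * b j)) ∧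
      ∀ i', i' ≠ i → ν (M i' j • b i') < ν (h * b j) := fun j => by
    obtain ⟨i, -, h1, h2, h3⟩ := v_sum_of_distinct ν Finset.univ Finset.univ_nonempty
      (fun i => M i j • b i) fun i _ i' _ hij hi hj =>
        hb i i' hij _ _ (left_ne_zero_of_smul hi) (left_ne_zero_of_smul hj)
    rw [hM] at h1
    refine ⟨i, h1.symm, fun i' => h1 ▸ h2 i' (Finset.mem_univ _), fun i' hi' =>
      h1 ▸ h3 (fun h0 => ?_) i' (Finset.mem_univ _) hi'⟩
    rw [h0, map_zero] at h1
    exact hν (mul_ne_zero hh (hb0 j)) h1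
  choose σ h1 h2 h3 using key
  have hM0 : ∀ j, M (σ j) j ≠ 0 := fun j h0 => by
    have := h1 j
    rw [h0, zero_smul, map_zero] at this
    exact hν (mul_ne_zero hh (hb0 j)) this.symm
  have hinj : Function.Injective σ := fun j j' hjj => by
    by_contra hne
    refine hb j' j (Ne.symm hne) _ _ (hM0 j) (hM0 j') ?_
    have e1 := h1 j
    have e2 := h1 j'
    rw [← hjj] at e2 ⊢
    simp only [Algebra.smul_def, map_mul] at e1 e2 ⊢
    apply mul_right_cancel₀ (hν (hb0 (σ j)))
    rw [mul_right_comm, e1, mul_right_comm _ (ν (b j)) (ν (b (σ j))), e2, mul_right_comm]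
  let σ' : Equiv.Perm ι := Equiv.ofBijective σ hinj.bijective_of_finite
  let N : Matrix ι ι F := fun i j => M i j • b i / (h * b j)
  have hpos' : ∀ j, 0 < ν (h * b j) := fun j => zero_lt_iff.2 (hν (mul_ne_zero hh (hb0 j)))
  have hN1 : ∀ j, ν (N (σ j) j) = 1 := fun j => by
    simp only [N]
    rw [map_div₀, h1, div_self (hpos' j).ne']
  have hN2 : ∀ i j, ν (N i j) ≤ 1 := fun i j => by
    simp only [N]
    rw [map_div₀, div_le_one₀ (hpos' j)]
    exact h2 j i
  have hN3 : ∀ i j, i ≠ σ j → ν (N i j) < 1 := fun i j hi => by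
    simp only [N]
    rw [map_div₀, div_lt_one₀ (hpos' j)]
    exact h3 j i hi
  have hsign : ∀ (τ : Equiv.Perm ι) (g : F), ν (Equiv.Perm.sign τ • g) = ν g := fun τ g => by
    rcases Int.units_eq_one_or (Equiv.Perm.sign τ) with h | h <;> simp [h]
  have hdet : ν N.det = 1 := by
    have hσ : ν (Equiv.Perm.sign σ' • ∏ j, N (σ' j) j) = 1 := by
      rw [hsign, map_prod]
      exact Finset.prod_eq_one fun j _ => hN1 j
    rw [Matrix.det_apply, ← Finset.add_sum_erase _ _ (Finset.mem_univ σ'),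
      ν.map_add_eq_of_lt_left, hσ]
    rw [hσ]
    refine ν.map_sum_lt one_ne_zero fun τ hτ => ?_
    obtain ⟨j, hj⟩ : ∃ j, τ j ≠ σ j := by
      by_contra hcon
      push Not at hcon
      exact Finset.ne_of_mem_erase hτ (Equiv.ext hcon)
    rw [hsign, map_prod, ← Finset.mul_prod_erase _ _ (Finset.mem_univ j)]
    exact (mul_le_of_le_one_right' (Finset.prod_le_one' fun i _ => hN2 _ _)).trans_lt
      (hN3 _ _ hj)
  have hNeq : N = Matrix.diagonal b * (algebraMap E F).mapMatrix M *
      Matrix.diagonal fun j => (h * b j)⁻¹ := by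
    ext i j
    simp only [N, Matrix.mul_diagonal, Matrix.diagonal_mul, RingHom.mapMatrix_apply,
      Matrix.map_apply, Algebra.smul_def]
    rw [div_eq_mul_inv, mul_comm (b i)]
  have hprod : ∏ i, b i ≠ 0 := Finset.prod_ne_zero_iff.2 fun i _ => hb0 i
  have hval : N.det * h ^ Module.finrank E F = algebraMap E F (Algebra.norm E h) := by
    rw [hNeq, Matrix.det_mul, Matrix.det_mul, Matrix.det_diagonal, Matrix.det_diagonal,
      ← RingHom.map_det, Algebra.norm_eq_matrix_det B, Finset.prod_inv_distrib,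
      Finset.prod_mul_distrib, Finset.prod_const, Finset.card_univ, hcard]
    have := pow_ne_zero (Module.finrank E F) hh
    field_simp
    rfl
  rw [← hval, map_mul, hdet, one_mul, map_pow]

/-- The totally ramified case with a basis of powers. -/
theorem v_norm_of_pow [FiniteDimensional E F] (ν : Valuation F Γ) {π : F} (hπ : π ≠ 0)
    (hb : ∀ i j : ℕ, i < Module.finrank E F → j < Module.finrank E F → i ≠ j →
      ∀ r r' : E, r ≠ 0 → r' ≠ 0 →
        ν (algebraMap E F r * π ^ i) ≠ ν (algebraMap E F r' * π ^ j)) (h : F) :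
    ν (algebraMap E F (Algebra.norm E h)) = ν h ^ Module.finrank E F :=
  v_norm_of_distinct ν (Fintype.card_fin _) (fun i : Fin (Module.finrank E F) => π ^ (i : ℕ))
    (fun _ => pow_ne_zero _ hπ) (fun i j hij r r' hr hr' => by
      rw [Algebra.smul_def, Algebra.smul_def]
      exact hb i j i.2 j.2 (fun h => hij (Fin.ext h)) r r' hr hr') h

end Pool.Agent.MP_52008a_ag.FF
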